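import Mathlib
import Pool.Agent.W662.KKS.Stmts

/-!
Project KKS: reduced von Neumann algebras (S_CUT).
-/

set_option autoImplicit false
set_option linter.unusedSectionVars false

open scoped InnerProductSpace
open Pool.Agent.Helper278 Pool.Agent.W662.KKS

namespace Pool.Agent.W459.KKS

theorem mem_comm {H : Type} [NormedAddCommGroup H] [InnerProductSpace ℂ H] [CompleteSpace H]
    (M : VonNeumannAlgebra H) (z : H →L[ℂ] H) : z ∈ M.commutant ↔ ∀ g ∈ M, g * z = z * g :=
  VonNeumannAlgebra.mem_commutant_iff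

theorem mem_of_comm {H : Type} [NormedAddCommGroup H] [InnerProductSpace ℂ H] [CompleteSpace H]
    (M : VonNeumannAlgebra H) (z : H →L[ℂ] H) (h : ∀ g ∈ M.commutant, g * z = z * g) : z ∈ M := by
  have h1 : z ∈ M.commutant.commutant := (mem_comm _ _).2 h
  rwa [VonNeumannAlgebra.commutant_commutant] at h1

section ext
variable {H K : Type} [NormedAddCommGroup H] [InnerProductSpace ℂ H] [CompleteSpace H]
  [NormedAddCommGroup K] [InnerProductSpace ℂ K] [CompleteSpace K]

/-- compression along `V` -/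
noncomputable def cp (V : K →L[ℂ] H) (r : H →L[ℂ] H) : K →L[ℂ] K :=
  ContinuousLinearMap.adjoint V ∘L r ∘L V

theorem cp_inner (V : K →L[ℂ] H) (r : H →L[ℂ] H) (a b : K) :
    ⟪a, cp V r b⟫_ℂ = ⟪V a, r (V b)⟫_ℂ := by
  show ⟪a, ContinuousLinearMap.adjoint V (r (V b))⟫_ℂ = _
  rw [ContinuousLinearMap.adjoint_inner_right]

theorem star_cp (V : K →L[ℂ] H) (r : H →L[ℂ] H) : star (cp V r) = cp V (star r) := by
  rw [ContinuousLinearMap.star_eq_adjoint, ContinuousLinearMap.star_eq_adjoint, cp, cp,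
    ContinuousLinearMap.adjoint_comp, ContinuousLinearMap.adjoint_comp,
    ContinuousLinearMap.adjoint_adjoint]
  rfl

/-- the linear map `∑ f(r,k) (r,k) ↦ ∑ f(r,k) r V T k` -/
noncomputable def G (V : K →L[ℂ] H) (R : VonNeumannAlgebra H) (T : K →L[ℂ] K) :
    ((Elt R × K) →₀ ℂ) →ₗ[ℂ] H :=
  Finsupp.linearCombination ℂ (fun p : Elt R × K => (p.1 : H →L[ℂ] H) (V (T p.2)))

theorem G_single (V : K →L[ℂ] H) (R : VonNeumannAlgebra H) (T : K →L[ℂ] K) (p : Elt R × K) (c : ℂ) :
    G V R T (Finsupp.single p c) = c • (p.1 : H →L[ℂ] H) (V (T p.2)) := by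
  unfold G
  rw [Finsupp.linearCombination_single]

theorem G_add (V : K →L[ℂ] H) (R : VonNeumannAlgebra H) (T S : K →L[ℂ] K)
    (f : (Elt R × K) →₀ ℂ) : G V R (T + S) f = G V R T f + G V R S f := by
  induction f using Finsupp.induction_linear with
  | zero => simp
  | add f g hf hg => simp only [map_add, hf, hg]; abel
  | single p c =>
    rw [G_single, G_single, G_single, ← smul_add]
    congr 1
    show (p.1 : H →L[ℂ] H) (V (T p.2 + S p.2)) = _
    rw [map_add, map_add]

theorem G_smul (V : K →L[ℂ] H) (R : VonNeumannAlgebra H) (T : K →L[ℂ] K) (z : ℂ)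
    (f : (Elt R × K) →₀ ℂ) : G V R (z • T) f = z • G V R T f := by
  induction f using Finsupp.induction_linear with
  | zero => simp
  | add f g hf hg => simp only [map_add, hf, hg, smul_add]
  | single p c =>
    rw [G_single, G_single, smul_comm]
    congr 1
    show (p.1 : H →L[ℂ] H) (V (z • T p.2)) = _
    rw [map_smul, map_smul]

/-- `T` commutes with all compressions of elements of `R` -/
def Cm (V : K →L[ℂ] H) (R : VonNeumannAlgebra H) (T : K →L[ℂ] K) : Prop :=
  ∀ r ∈ R, cp V r * T = T * cp V r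

theorem G_inner (V : K →L[ℂ] H) (R : VonNeumannAlgebra H) (T S : K →L[ℂ] K) (hS : Cm V R S)
    (f g : (Elt R × K) →₀ ℂ) :
    ⟪G V R T f, G V R S g⟫_ℂ = ⟪G V R (star S * T) f, G V R 1 g⟫_ℂ := by
  induction f using Finsupp.induction_linear with
  | zero => simp
  | add f g hf hg => simp only [map_add, inner_add_left, hf, hg]
  | single p c =>
    induction g using Finsupp.induction_linear with
    | zero => simp
    | add f g hf hg => simp only [map_add, inner_add_right, hf, hg]
    | single q d =>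
      rw [G_single, G_single, G_single, G_single, inner_smul_left, inner_smul_left,
        inner_smul_right, inner_smul_right]
      congr 2
      have h1 : (star (p.1 : H →L[ℂ] H) * (q.1 : H →L[ℂ] H)) ∈ R := (star p.1 * q.1).2
      have e1 : ∀ A B : K →L[ℂ] K, ⟪(p.1 : H →L[ℂ] H) (V (A p.2)), (q.1 : H →L[ℂ] H) (V (B q.2))⟫_ℂ
          = ⟪A p.2, (cp V (star (p.1 : H →L[ℂ] H) * (q.1 : H →L[ℂ] H)) * B) q.2⟫_ℂ := by
        intro A B
        show _ = ⟪A p.2, cp V (star (p.1 : H →L[ℂ] H) * (q.1 : H →L[ℂ] H)) (B q.2)⟫_ℂ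
        rw [cp_inner]
        show _ = ⟪V (A p.2), (star (p.1 : H →L[ℂ] H)) ((q.1 : H →L[ℂ] H) (V (B q.2)))⟫_ℂ
        rw [ContinuousLinearMap.star_eq_adjoint, ContinuousLinearMap.adjoint_inner_right]
      rw [e1 T S, e1 (star S * T) 1, mul_one, hS _ h1]
      generalize cp V (star (p.1 : H →L[ℂ] H) * (q.1 : H →L[ℂ] H)) = Y
      show ⟪T p.2, S (Y q.2)⟫_ℂ = ⟪(ContinuousLinearMap.adjoint S) (T p.2), Y q.2⟫_ℂ
      rw [ContinuousLinearMap.adjoint_inner_left]

theorem Cm.star' {V : K →L[ℂ] H} {R : VonNeumannAlgebra H} {T : K →L[ℂ] K} (h : Cm V R T) :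
    Cm V R (star T) := by
  intro r hr
  have h1 := congrArg star (h (star r) (star_mem (S := VonNeumannAlgebra H) hr))
  rw [star_mul, star_mul, star_cp, star_star] at h1
  exact h1.symm

theorem G_norm (V : K →L[ℂ] H) (R : VonNeumannAlgebra H) (T : K →L[ℂ] K) (hT : Cm V R T)
    (f : (Elt R × K) →₀ ℂ) : ‖G V R T f‖ ≤ ‖T‖ * ‖G V R 1 f‖ := by
  have hpos : (0 : K →L[ℂ] K) ≤ algebraMap ℝ (K →L[ℂ] K) (‖T‖ ^ 2) - star T * T := by
    rw [sub_nonneg]
    have h1 : IsSelfAdjoint (star T * T) := IsSelfAdjoint.star_mul_self T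
    have h2 := h1.le_algebraMap_norm_self
    rwa [CStarRing.norm_star_mul_self, ← pow_two] at h2
  set X : K →L[ℂ] K := algebraMap ℝ (K →L[ℂ] K) (‖T‖ ^ 2) - star T * T with hX
  have hXc : Cm V R X := by
    intro r hr
    have h1 := hT r hr
    have h2 := hT.star' r hr
    rw [hX, mul_sub, sub_mul, ← mul_assoc, h2, mul_assoc, h1, ← mul_assoc]
    congr 1
    exact (Algebra.commutes _ _).symm
  have hD : Cm V R (CFC.sqrt X) := by
    intro r hr
    have h1 : Commute X (cp V r) := (hXc r hr).symm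
    have h2 : Commute (CFC.sqrt X) (cp V r) := by
      unfold CFC.sqrt
      exact Commute.cfcₙ_nnreal h1 _
    exact h2.eq.symm
  have hDD : CFC.sqrt X * CFC.sqrt X = X := CFC.sqrt_mul_sqrt_self X hpos
  have hDs : star (CFC.sqrt X) = CFC.sqrt X := (CFC.sqrt_nonneg X).isSelfAdjoint
  have e1 := G_inner V R T T hT f f
  have e2 := G_inner V R (CFC.sqrt X) (CFC.sqrt X) hD f f
  rw [hDs, hDD] at e2
  have e3 : star T * T + X = ((‖T‖ ^ 2 : ℝ) : ℂ) • (1 : K →L[ℂ] K) := by
    rw [hX, add_sub_cancel, Algebra.algebraMap_eq_smul_one]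
    exact (Complex.coe_smul _ _).symm
  have e4 : ⟪G V R T f, G V R T f⟫_ℂ + ⟪G V R (CFC.sqrt X) f, G V R (CFC.sqrt X) f⟫_ℂ =
      ((‖T‖ ^ 2 : ℝ) : ℂ) * ⟪G V R 1 f, G V R 1 f⟫_ℂ := by
    rw [e1, e2, ← inner_add_left, ← G_add, e3, G_smul, inner_smul_left, Complex.conj_ofReal]
  have nn : ∀ v : H, (⟪v, v⟫_ℂ).re = ‖v‖ ^ 2 := fun v => inner_self_eq_norm_sq (𝕜 := ℂ) v
  have e5 : ‖G V R T f‖ ^ 2 + ‖G V R (CFC.sqrt X) f‖ ^ 2 = ‖T‖ ^ 2 * ‖G V R 1 f‖ ^ 2 := by
    have h1 := congrArg Complex.re e4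
    rw [Complex.add_re, Complex.re_ofReal_mul, nn, nn, nn] at h1
    exact h1
  have e6 : ‖G V R T f‖ ^ 2 ≤ (‖T‖ * ‖G V R 1 f‖) ^ 2 := by
    rw [mul_pow]
    nlinarith [sq_nonneg ‖G V R (CFC.sqrt X) f‖]
  exact (pow_le_pow_iff_left₀ (norm_nonneg _) (by positivity) (by norm_num)).1 e6

/-- closure of `R V K` -/
noncomputable def W (V : K →L[ℂ] H) (R : VonNeumannAlgebra H) : Submodule ℂ H :=
  (LinearMap.range (G V R 1)).topologicalClosure

instance (V : K →L[ℂ] H) (R : VonNeumannAlgebra H) : CompleteSpace (W V R) := by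
  have h : IsClosed ((W V R : Submodule ℂ H) : Set H) := Submodule.isClosed_topologicalClosure _
  exact h.completeSpace_coe

/-- shift by `r` -/
noncomputable def sh {R : VonNeumannAlgebra H} (r : Elt R) :
    ((Elt R × K) →₀ ℂ) →ₗ[ℂ] ((Elt R × K) →₀ ℂ) :=
  Finsupp.lmapDomain ℂ ℂ (fun p : Elt R × K => (r * p.1, p.2))

theorem G_sh (V : K →L[ℂ] H) (R : VonNeumannAlgebra H) (T : K →L[ℂ] K) (r : Elt R)
    (f : (Elt R × K) →₀ ℂ) : G V R T (sh r f) = (r : H →L[ℂ] H) (G V R T f) := by
  induction f using Finsupp.induction_linear with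
  | zero => simp
  | add f g hf hg => simp only [map_add, hf, hg]
  | single p c =>
    have h1 : sh r (Finsupp.single p c) = Finsupp.single (r * p.1, p.2) c := by
      unfold sh
      rw [Finsupp.lmapDomain_apply, Finsupp.mapDomain_single]
    rw [h1, G_single, G_single, map_smul]
    rfl

theorem G_mem (V : K →L[ℂ] H) (R : VonNeumannAlgebra H) (f : (Elt R × K) →₀ ℂ) :
    G V R 1 f ∈ W V R := Submodule.le_topologicalClosure _ (LinearMap.mem_range_self _ f)

theorem V_mem (V : K →L[ℂ] H) (R : VonNeumannAlgebra H) (k : K) : V k ∈ W V R := by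
  have h1 := G_mem V R (Finsupp.single ((1 : Elt R), k) 1)
  rw [G_single, one_smul] at h1
  exact h1

theorem W_inv (V : K →L[ℂ] H) (R : VonNeumannAlgebra H) (r : H →L[ℂ] H)
    (h : ∀ f, r (G V R 1 f) ∈ W V R) (v : H) (hv : v ∈ W V R) : r v ∈ W V R := by
  have h1 : ((W V R : Submodule ℂ H) : Set H) ⊆ r ⁻¹' ((W V R : Submodule ℂ H) : Set H) := by
    have h2 : IsClosed (r ⁻¹' ((W V R : Submodule ℂ H) : Set H)) :=
      (Submodule.isClosed_topologicalClosure _).preimage r.continuous
    have h3 : ((LinearMap.range (G V R 1) : Submodule ℂ H) : Set H) ⊆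
        r ⁻¹' ((W V R : Submodule ℂ H) : Set H) := by
      rintro _ ⟨f, rfl⟩
      exact h f
    exact closure_minimal h3 h2
  exact h1 hv

theorem W_inv_R (V : K →L[ℂ] H) (R : VonNeumannAlgebra H) (r : H →L[ℂ] H) (hr : r ∈ R)
    (v : H) (hv : v ∈ W V R) : r v ∈ W V R := by
  apply W_inv V R r _ v hv
  intro f
  have h1 := G_sh V R 1 ⟨r, hr⟩ f
  rw [show r = ((⟨r, hr⟩ : Elt R) : H →L[ℂ] H) from rfl, ← h1]
  exact G_mem V R _

/-- two operators that agree on `W` and vanish on its complement agree -/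
theorem eq_of_W (V : K →L[ℂ] H) (R : VonNeumannAlgebra H) (A B : H →L[ℂ] H)
    (h1 : ∀ f, A (G V R 1 f) = B (G V R 1 f)) (h2 : ∀ v ∈ (W V R)ᗮ, A v = B v) : A = B := by
  have h3 : ∀ v ∈ W V R, A v = B v := by
    have h4 : IsClosed {v : H | A v = B v} := isClosed_eq A.continuous B.continuous
    have h5 : ((LinearMap.range (G V R 1) : Submodule ℂ H) : Set H) ⊆ {v : H | A v = B v} := by
      rintro _ ⟨f, rfl⟩
      exact h1 f
    exact fun v hv => closure_minimal h5 h4 hv
  ext v
  have h6 : v = (W V R).starProjection v + (v - (W V R).starProjection v) := by abel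
  rw [h6, map_add, map_add, h3 _ (Submodule.starProjection_apply_mem _ v),
    h2 _ (Submodule.sub_starProjection_mem_orthogonal v)]

/-- the map into the closed subspace -/
noncomputable def G' (V : K →L[ℂ] H) (R : VonNeumannAlgebra H) :
    ((Elt R × K) →₀ ℂ) →ₗ[ℂ] W V R :=
  (G V R 1).codRestrict (W V R) (G_mem V R)

theorem G'_dense (V : K →L[ℂ] H) (R : VonNeumannAlgebra H) : DenseRange (G' V R) := by
  rw [DenseRange, dense_iff_closure_eq, Set.eq_univ_iff_forall]
  rintro ⟨v, hv⟩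
  rw [Metric.mem_closure_iff]
  intro ε hε
  have h1 : v ∈ closure ((LinearMap.range (G V R 1) : Submodule ℂ H) : Set H) := hv
  rw [Metric.mem_closure_iff] at h1
  obtain ⟨_, ⟨f, rfl⟩, h2⟩ := h1 ε hε
  exact ⟨G' V R f, Set.mem_range_self f, h2⟩

/-- extension of `T` to `H` -/
noncomputable def Ex (V : K →L[ℂ] H) (R : VonNeumannAlgebra H) (T : K →L[ℂ] K) : H →L[ℂ] H :=
  ((G V R T).extendOfNorm (G' V R)) ∘L (W V R).orthogonalProjectionOnto

theorem Ex_G (V : K →L[ℂ] H) (R : VonNeumannAlgebra H) (T : K →L[ℂ] K) (hT : Cm V R T)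
    (f : (Elt R × K) →₀ ℂ) : Ex V R T (G V R 1 f) = G V R T f := by
  have h1 : (W V R).orthogonalProjectionOnto (G V R 1 f) = G' V R f :=
    Submodule.orthogonalProjectionOnto_mem_subspace_eq_self (G' V R f)
  show ((G V R T).extendOfNorm (G' V R)) ((W V R).orthogonalProjectionOnto (G V R 1 f)) = _
  rw [h1]
  exact LinearMap.extendOfNorm_eq (G'_dense V R) ⟨‖T‖, fun f => G_norm V R T hT f⟩ f

theorem Ex_orth (V : K →L[ℂ] H) (R : VonNeumannAlgebra H) (T : K →L[ℂ] K) (v : H)
    (hv : v ∈ (W V R)ᗮ) : Ex V R T v = 0 := by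
  show ((G V R T).extendOfNorm (G' V R)) ((W V R).orthogonalProjectionOnto v) = _
  rw [Submodule.orthogonalProjectionOnto_apply_of_mem_orthogonal hv, map_zero]

theorem exists_ext (V : K →L[ℂ] H) (M : VonNeumannAlgebra H) (T : K →L[ℂ] K)
    (hT : Cm V M.commutant T) : ∃ x ∈ M, ∀ k, V (T k) = x (V k) := by
  refine ⟨Ex V M.commutant T, ?_, ?_⟩
  · apply mem_of_comm
    intro g hg
    symm
    apply eq_of_W V M.commutant
    · intro f
      have h1 := G_sh V M.commutant 1 ⟨g, hg⟩ f
      have h2 := G_sh V M.commutant T ⟨g, hg⟩ f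
      show Ex V M.commutant T (g (G V M.commutant 1 f)) = g (Ex V M.commutant T (G V M.commutant 1 f))
      rw [Ex_G V _ T hT, ← h1, Ex_G V _ T hT, h2]
    · intro v hv
      have h1 : g v ∈ (W V M.commutant)ᗮ := by
        rw [Submodule.mem_orthogonal]
        intro u hu
        have h2 := W_inv_R V M.commutant (star g) (star_mem (S := VonNeumannAlgebra H) hg) u hu
        rw [Submodule.mem_orthogonal] at hv
        have h3 := hv _ h2
        rw [ContinuousLinearMap.star_eq_adjoint, ContinuousLinearMap.adjoint_inner_left] at h3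
        exact h3
      show Ex V M.commutant T (g v) = g (Ex V M.commutant T v)
      rw [Ex_orth V _ T v hv, Ex_orth V _ T _ h1, map_zero]
  · intro k
    have h1 := Ex_G V M.commutant T hT (Finsupp.single ((1 : Elt M.commutant), k) 1)
    rw [G_single, G_single, one_smul, one_smul] at h1
    exact h1.symm

end ext

section cut
variable {H : Type} [NormedAddCommGroup H] [InnerProductSpace ℂ H] [CompleteSpace H]

/-- the range of the projection `e` -/
def rg (e : H →L[ℂ] H) : Submodule ℂ H := (1 - e).ker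

theorem mem_rg (e : H →L[ℂ] H) (x : H) : x ∈ rg e ↔ e x = x := by
  unfold rg
  rw [LinearMap.mem_ker]
  show x - e x = 0 ↔ _
  rw [sub_eq_zero]
  exact eq_comm

instance (e : H →L[ℂ] H) : CompleteSpace (rg e) := by
  unfold rg
  infer_instance

/-- inclusion -/
def vi (e : H →L[ℂ] H) : rg e →L[ℂ] H := (rg e).subtypeL

theorem vi_adj {e : H →L[ℂ] H} (he : star e = e) (hee : e * e = e) (v : H) :
    vi e (ContinuousLinearMap.adjoint (vi e) v) = e v := by
  have h0 : e v ∈ rg e := by
    rw [mem_rg]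
    exact congrArg (fun T : H →L[ℂ] H => T v) hee
  have h1 : ContinuousLinearMap.adjoint (vi e) v = ⟨e v, h0⟩ := by
    apply ext_inner_left ℂ
    intro j
    rw [ContinuousLinearMap.adjoint_inner_right]
    show ⟪(j : H), v⟫_ℂ = ⟪(j : H), e v⟫_ℂ
    have h2 : e (j : H) = j := (mem_rg e j).1 j.2
    have h3 := ContinuousLinearMap.adjoint_inner_right e (j : H) v
    rw [← ContinuousLinearMap.star_eq_adjoint, he, h2] at h3
    exact h3.symm
  rw [h1]
  rfl

theorem adj_vi (e : H →L[ℂ] H) (k : rg e) : ContinuousLinearMap.adjoint (vi e) (vi e k) = k := by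
  apply ext_inner_left ℂ
  intro j
  rw [ContinuousLinearMap.adjoint_inner_right]
  rfl

theorem vi_inj {e : H →L[ℂ] H} {a b : rg e} (h : vi e a = vi e b) : a = b := Subtype.ext h

/-- the reduced algebra -/
noncomputable def red (e : H →L[ℂ] H) (M : VonNeumannAlgebra H) : VonNeumannAlgebra (rg e) where
  toStarSubalgebra := StarSubalgebra.centralizer ℂ {T | ∃ c ∈ M.commutant, T = cp (vi e) c}
  centralizer_centralizer' := by
    show Set.centralizer (Set.centralizer ((StarSubalgebra.centralizer ℂ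
      {T | ∃ c ∈ M.commutant, T = cp (vi e) c} :
        StarSubalgebra ℂ (rg e →L[ℂ] rg e)) : Set (rg e →L[ℂ] rg e))) =
      ((StarSubalgebra.centralizer ℂ
      {T | ∃ c ∈ M.commutant, T = cp (vi e) c} :
        StarSubalgebra ℂ (rg e →L[ℂ] rg e)) : Set (rg e →L[ℂ] rg e))
    rw [StarSubalgebra.coe_centralizer, Set.centralizer_centralizer_centralizer]

theorem mem_red {e : H →L[ℂ] H} (he : star e = e) (hee : e * e = e) (M : VonNeumannAlgebra H)
    (heM : e ∈ M.commutant) (z : rg e →L[ℂ] rg e) :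
    z ∈ red e M ↔ ∃ x ∈ M, ∀ k, vi e (z k) = x (vi e k) := by
  have h0 : z ∈ red e M ↔ ∀ g ∈ {T : rg e →L[ℂ] rg e | ∃ c ∈ M.commutant, T = cp (vi e) c},
      g * z = z * g ∧ star g * z = z * star g :=
    StarSubalgebra.mem_centralizer_iff (R := ℂ)
  rw [h0]
  constructor
  · intro h
    exact exists_ext (vi e) M z fun r hr => (h _ ⟨r, hr, rfl⟩).1
  · rintro ⟨x, hx, hz⟩
    have key : ∀ c ∈ M.commutant, cp (vi e) c * z = z * cp (vi e) c := by
      intro c hc
      have h1 : x * c = c * x := (mem_comm M c).1 hc x hx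
      have h2 : x * e = e * x := (mem_comm M e).1 heM x hx
      ext k
      have h3 : (cp (vi e) c * z) k = (z * cp (vi e) c) k := by
        apply vi_inj
        show vi e (ContinuousLinearMap.adjoint (vi e) (c (vi e (z k)))) =
          vi e (z (ContinuousLinearMap.adjoint (vi e) (c (vi e k))))
        rw [vi_adj he hee, hz, hz, vi_adj he hee]
        have h4 : e * (c * x) = x * (e * c) := by
          rw [← h1, ← mul_assoc, ← mul_assoc, h2]
        exact congrArg (fun T : H →L[ℂ] H => T (vi e k)) h4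
      rw [h3]
    rintro g ⟨c, hc, rfl⟩
    refine ⟨key c hc, ?_⟩
    rw [star_cp]
    exact key _ (star_mem (S := VonNeumannAlgebra H) hc)

theorem vi_cp {e : H →L[ℂ] H} (he : star e = e) (hee : e * e = e) (M : VonNeumannAlgebra H)
    (heM : e ∈ M.commutant) (x : H →L[ℂ] H) (hx : x ∈ M) (k : rg e) :
    vi e (cp (vi e) x k) = x (vi e k) := by
  show vi e (ContinuousLinearMap.adjoint (vi e) (x (vi e k))) = _
  rw [vi_adj he hee]
  have h2 : x * e = e * x := (mem_comm M e).1 heM x hx
  have h3 : e (x (vi e k)) = x (e (vi e k)) :=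
    congrArg (fun T : H →L[ℂ] H => T (vi e k)) h2.symm
  rw [h3]
  congr 1
  exact (mem_rg e k).1 k.2

theorem cp_of {e : H →L[ℂ] H} {x : H →L[ℂ] H} {z : rg e →L[ℂ] rg e}
    (h : ∀ k, vi e (z k) = x (vi e k)) : cp (vi e) x = z := by
  ext k
  have h1 : cp (vi e) x k = z k := by
    show ContinuousLinearMap.adjoint (vi e) (x (vi e k)) = z k
    rw [← h, adj_vi]
  rw [h1]

theorem G_any_mem {K : Type} [NormedAddCommGroup K] [InnerProductSpace ℂ K] [CompleteSpace K]
    (V : K →L[ℂ] H) (R : VonNeumannAlgebra H) (T : K →L[ℂ] K) (f : (Elt R × K) →₀ ℂ) :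
    G V R T f ∈ W V R := by
  induction f using Finsupp.induction_linear with
  | zero => simp
  | add f g hf hg => rw [map_add]; exact Submodule.add_mem _ hf hg
  | single p c =>
    have h1 : G V R T (Finsupp.single p c) = G V R 1 (Finsupp.single (p.1, T p.2) c) := by
      rw [G_single, G_single]
      rfl
    rw [h1]
    exact G_mem V R _

theorem M_G {e : H →L[ℂ] H} (he : star e = e) (hee : e * e = e) (M : VonNeumannAlgebra H)
    (heM : e ∈ M.commutant) (x : H →L[ℂ] H) (hx : x ∈ M) (f : (Elt M.commutant × rg e) →₀ ℂ) :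
    x (G (vi e) M.commutant 1 f) = G (vi e) M.commutant (cp (vi e) x) f := by
  induction f using Finsupp.induction_linear with
  | zero => simp
  | add f g hf hg => simp only [map_add, hf, hg]
  | single p c =>
    rw [G_single, G_single, map_smul, vi_cp he hee M heM x hx]
    congr 1
    exact congrArg (fun T : H →L[ℂ] H => T (vi e p.2)) ((mem_comm M _).1 p.1.2 x hx)

/-- the star homomorphism onto the reduced algebra -/
noncomputable def th {e : H →L[ℂ] H} (he : star e = e) (hee : e * e = e) (M : VonNeumannAlgebra H)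
    (heM : e ∈ M.commutant) : Elt M →⋆ₐ[ℂ] Elt (red e M) where
  toFun x := ⟨cp (vi e) x, (mem_red he hee M heM _).2 ⟨x, x.2, vi_cp he hee M heM x x.2⟩⟩
  map_one' := Subtype.ext (cp_of fun _ => rfl)
  map_mul' x y := Subtype.ext (cp_of fun k => by
    show vi e (cp (vi e) x (cp (vi e) y k)) = (x : H →L[ℂ] H) ((y : H →L[ℂ] H) (vi e k))
    rw [vi_cp he hee M heM x x.2, vi_cp he hee M heM y y.2])
  map_zero' := Subtype.ext (cp_of fun _ => rfl)
  map_add' x y := Subtype.ext (cp_of fun k => by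
    show vi e (cp (vi e) x k + cp (vi e) y k) = (x : H →L[ℂ] H) (vi e k) + (y : H →L[ℂ] H) (vi e k)
    rw [map_add, vi_cp he hee M heM x x.2, vi_cp he hee M heM y y.2])
  commutes' z := Subtype.ext (cp_of fun k => rfl)
  map_star' x := Subtype.ext (star_cp _ _).symm

theorem th_apply {e : H →L[ℂ] H} (he : star e = e) (hee : e * e = e) (M : VonNeumannAlgebra H)
    (heM : e ∈ M.commutant) (x : Elt M) (k : rg e) :
    vi e ((th he hee M heM x : rg e →L[ℂ] rg e) k) = (x : H →L[ℂ] H) (vi e k) :=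
  vi_cp he hee M heM x x.2 k

theorem th_surj {e : H →L[ℂ] H} (he : star e = e) (hee : e * e = e) (M : VonNeumannAlgebra H)
    (heM : e ∈ M.commutant) : Function.Surjective (th he hee M heM) := by
  rintro ⟨z, hz⟩
  obtain ⟨x, hx, h⟩ := (mem_red he hee M heM z).1 hz
  exact ⟨⟨x, hx⟩, Subtype.ext (cp_of h)⟩

theorem full {M : VonNeumannAlgebra H} (hc : HasTrivialCenter M) {e : H →L[ℂ] H}
    (he : star e = e) (hee : e * e = e) (heM : e ∈ M.commutant)
    (he0 : ∃ k, vi e k ≠ 0) (v : H) : v ∈ W (vi e) M.commutant := by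
  set P := (W (vi e) M.commutant).starProjection with hP
  have hPm : ∀ v, P v ∈ W (vi e) M.commutant := Submodule.starProjection_apply_mem _
  have hPs : ∀ v ∈ W (vi e) M.commutant, P v = v := fun v hv =>
    Submodule.starProjection_eq_self_iff.2 hv
  have hPo : ∀ v ∈ (W (vi e) M.commutant)ᗮ, P v = 0 := by
    intro v hv
    show ((W (vi e) M.commutant).orthogonalProjectionOnto v : H) = 0
    rw [Submodule.orthogonalProjectionOnto_apply_of_mem_orthogonal hv]
    rfl
  have hinv : ∀ r : H →L[ℂ] H, (∀ v ∈ W (vi e) M.commutant, r v ∈ W (vi e) M.commutant) →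
      (∀ v ∈ W (vi e) M.commutant, star r v ∈ W (vi e) M.commutant) → P * r = r * P := by
    intro r h1 h2
    apply eq_of_W (vi e) M.commutant
    · intro f
      show P (r (G (vi e) M.commutant 1 f)) = r (P (G (vi e) M.commutant 1 f))
      rw [hPs _ (G_mem _ _ f), hPs _ (h1 _ (G_mem _ _ f))]
    · intro v hv
      have h3 : r v ∈ (W (vi e) M.commutant)ᗮ := by
        rw [Submodule.mem_orthogonal]
        intro u hu
        rw [Submodule.mem_orthogonal] at hv
        have h3 := hv _ (h2 u hu)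
        rw [ContinuousLinearMap.star_eq_adjoint, ContinuousLinearMap.adjoint_inner_left] at h3
        exact h3
      show P (r v) = r (P v)
      rw [hPo v hv, hPo _ h3, map_zero]
  have hPM : P ∈ M := by
    apply mem_of_comm
    intro g hg
    exact (hinv g (fun v hv => W_inv_R _ _ g hg v hv) (fun v hv =>
      W_inv_R _ _ (star g) (star_mem (S := VonNeumannAlgebra H) hg) v hv)).symm
  have hM : ∀ x ∈ M, ∀ v ∈ W (vi e) M.commutant, x v ∈ W (vi e) M.commutant := by
    intro x hx
    apply W_inv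
    intro f
    rw [M_G he hee M heM x hx]
    exact G_any_mem _ _ _ f
  obtain ⟨c, hcP⟩ := hc P hPM fun x hx => hinv x (hM x hx)
    (hM _ (star_mem (S := VonNeumannAlgebra H) hx))
  obtain ⟨k, hk⟩ := he0
  have h1 : P (vi e k) = vi e k := hPs _ (V_mem _ _ k)
  have h2 : c = 1 := by
    rw [hcP] at h1
    have h3 : (c - 1) • vi e k = 0 := by
      rw [sub_smul, one_smul]
      exact sub_eq_zero.2 h1
    rcases smul_eq_zero.1 h3 with h4 | h4
    · exact sub_eq_zero.1 h4
    · exact absurd h4 hk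
  have h5 := hPm v
  rw [hcP, h2, one_smul] at h5
  exact h5

theorem th_inj {e : H →L[ℂ] H} (he : star e = e) (hee : e * e = e) (M : VonNeumannAlgebra H)
    (heM : e ∈ M.commutant) (hc : HasTrivialCenter M) (he0 : ∃ k, vi e k ≠ 0) :
    Function.Injective (th he hee M heM) := by
  rw [injective_iff_map_eq_zero]
  intro x hx
  have h1 : ∀ k, (x : H →L[ℂ] H) (vi e k) = 0 := by
    intro k
    rw [← th_apply he hee M heM x k, hx]
    exact map_zero _
  have h2 : (x : H →L[ℂ] H) = 0 := by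
    apply eq_of_W (vi e) M.commutant
    · intro f
      rw [M_G he hee M heM x x.2]
      have h3 : cp (vi e) (x : H →L[ℂ] H) = 0 := cp_of fun k => by rw [h1]; exact map_zero _
      rw [h3]
      have h4 := G_smul (vi e) M.commutant 1 0 f
      rw [zero_smul, zero_smul] at h4
      rw [h4]
      rfl
    · intro v hv
      have h3 := full hc he hee heM he0 v
      have h4 : v = 0 := by
        rw [Submodule.mem_orthogonal] at hv
        exact inner_self_eq_zero.1 (hv v h3)
      rw [h4, map_zero, map_zero]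
  exact Subtype.ext h2

theorem cut : S_CUT := by
  intro H _ _ _ e he hee
  refine ⟨rg e, inferInstance, inferInstance, inferInstance, vi e, fun k => rfl, ?_, ?_⟩
  · intro v
    constructor
    · intro h
      exact ⟨⟨v, (mem_rg e v).2 h⟩, rfl⟩
    · rintro ⟨k, rfl⟩
      exact (mem_rg e _).1 k.2
  intro M heM
  refine ⟨red e M, mem_red he hee M heM, ?_⟩
  intro τ hτ he0
  have he0' : ∃ k, vi e k ≠ 0 := by
    by_contra h
    push Not at h
    apply he0
    ext v
    have h1 : e v ∈ rg e := by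
      rw [mem_rg]
      exact congrArg (fun T : H →L[ℂ] H => T v) hee
    exact h ⟨e v, h1⟩
  let θ : Elt M ≃⋆ₐ[ℂ] Elt (red e M) := StarAlgEquiv.ofBijective (th he hee M heM)
    ⟨th_inj he hee M heM hτ.center he0', th_surj he hee M heM⟩
  have hθ : ∀ x : Elt M, ∀ k, vi e ((θ x : rg e →L[ℂ] rg e) k) = (x : H →L[ℂ] H) (vi e k) :=
    th_apply he hee M heM
  refine ⟨θ, hθ, ?_⟩
  intro ζ hζ
  have hval : ∀ x : Elt M, ⟪ζ, (θ x : rg e →L[ℂ] rg e) ζ⟫_ℂ = τ x := by
    intro x
    rw [← hζ x, ← hθ x ζ]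
    rfl
  have hsurj : ∀ z : Elt (red e M), ∃ x : Elt M, θ x = z := θ.surjective
  constructor
  · intro z hz hcz
    obtain ⟨x, hx⟩ := hsurj ⟨z, hz⟩
    obtain ⟨c, hc⟩ := hτ.center x x.2 (by
      intro y hy
      have h1 : (⟨z, hz⟩ : Elt (red e M)) * θ ⟨y, hy⟩ = θ ⟨y, hy⟩ * ⟨z, hz⟩ :=
        Subtype.ext (hcz _ (θ ⟨y, hy⟩).2)
      rw [← hx, ← map_mul, ← map_mul] at h1
      exact congrArg Subtype.val (θ.injective h1))
    refine ⟨c, ?_⟩
    have h2 : x = c • (1 : Elt M) := Subtype.ext hc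
    rw [h2, map_smul, map_one] at hx
    exact (congrArg Subtype.val hx).symm
  · intro hfin
    apply hτ.infinite
    exact LinearEquiv.finiteDimensional (θ.toAlgEquiv.toLinearEquiv.symm)
  · constructor
    · have h1 := hval 1
      rw [map_one, hτ.trace.one] at h1
      exact h1
    · intro a b
      obtain ⟨x, rfl⟩ := hsurj a
      obtain ⟨y, rfl⟩ := hsurj b
      rw [← map_mul, ← map_mul, hval, hval, hτ.trace.tracial]
    · intro a ha
      obtain ⟨x, rfl⟩ := hsurj a
      rw [← map_star, ← map_mul, hval] at ha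
      rw [hτ.trace.faithful x ha, map_zero]
  · refine ⟨fun k => if k = 0 then ζ else 0, ?_, ?_⟩
    · apply summable_of_ne_finset_zero (s := {0})
      intro b hb
      rw [Finset.mem_singleton] at hb
      simp [hb]
    · intro x
      rw [tsum_eq_single 0]
      · simp
      · intro b hb
        simp [hb]

end cut

end Pool.Agent.W459.KKS
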